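import Mathlib

set_option autoImplicit false

namespace Pool.Agent.MP49fec2

/-- The word `w` (over any set of variables) is a law of the group `G`. -/
def IsLaw {α : Type} (G : Type) [Group G] (w : FreeGroup α) : Prop :=
  ∀ f : α → G, FreeGroup.lift f w = 1

/-- A variety of groups is given by a set `L` of laws in countably many variables;
`InVariety L G` says that `G` belongs to the variety defined by `L`. -/
def InVariety (L : Set (FreeGroup ℕ)) (G : Type) [Group G] : Prop := ∀ w ∈ L, IsLaw G w

/-- The verbal subgroup of the free group of rank `m` for the set of laws `L`: the subgroup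
generated by all values of words of `L`. -/
def verbal (L : Set (FreeGroup ℕ)) (m : ℕ) : Subgroup (FreeGroup (Fin m)) :=
  Subgroup.closure {x | ∃ w ∈ L, ∃ f : ℕ → FreeGroup (Fin m), x = FreeGroup.lift f w}

instance verbal_normal (L : Set (FreeGroup ℕ)) (m : ℕ) : (verbal L m).Normal := by
  constructor
  intro n hn g
  unfold verbal at hn ⊢
  induction hn using Subgroup.closure_induction with
  | mem x hx =>
    obtain ⟨w, hw, f, rfl⟩ := hx
    refine Subgroup.subset_closure ⟨w, hw, fun i => g * f i * g⁻¹, ?_⟩
    have : (MulAut.conj g).toMonoidHom.comp (FreeGroup.lift f)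
        = FreeGroup.lift (fun i => g * f i * g⁻¹) := by
      ext i
      simp
    rw [← this]
    simp
  | one => simp
  | mul x y _ _ hx hy =>
    have : g * (x * y) * g⁻¹ = (g * x * g⁻¹) * (g * y * g⁻¹) := by group
    rw [this]; exact mul_mem hx hy
  | inv x _ hx =>
    have : g * x⁻¹ * g⁻¹ = (g * x * g⁻¹)⁻¹ := by group
    rw [this]; exact inv_mem hx

/-- The relatively free group of rank `m` of the variety defined by `L`. -/
abbrev RelFree (L : Set (FreeGroup ℕ)) (m : ℕ) : Type := FreeGroup (Fin m) ⧸ verbal L m

/-- The group `G` generates the variety defined by `L`: it lies in it, and every law of `G`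
holds in every group of the variety (so no smaller variety contains `G`). -/
def Generates (L : Set (FreeGroup ℕ)) (G : Type) [Group G] : Prop :=
  InVariety L G ∧ ∀ w : FreeGroup ℕ, IsLaw G w → ∀ (T : Type) [Group T], InVariety L T → IsLaw T w

/-- `G` can be generated by at most `k` elements. -/
def IsGen (k : ℕ) (G : Type) [Group G] : Prop := ∃ s : Fin k → G, Subgroup.closure (Set.range s) = ⊤

/-- `G` is residually `k`-generator. -/
def ResiduallyGen (k : ℕ) (G : Type) [Group G] : Prop :=
  ∀ g : G, g ≠ 1 → ∃ (N : Subgroup G) (_ : N.Normal), g ∉ N ∧ IsGen k (G ⧸ N)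

end Pool.Agent.MP49fec2
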