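import Mathlib

set_option autoImplicit false

namespace Pool.Agent.MP49fec2

/-- A model of the Burnside group `B(3,3)` (order `3^7`). -/
@[ext] structure K where
  (a1 a2 a3 p q1 q2 z : ZMod 3)

namespace K

instance : Mul K := ⟨fun x y => ⟨x.a1 + y.a1, x.a2 + y.a2, x.a3 + y.a3,
  x.p + y.p + (x.a1 * y.a2 - x.a2 * y.a1), x.q1 + y.q1 + x.a1 * y.a3, x.q2 + y.q2 + x.a2 * y.a3,
  x.z + y.z + x.p * y.a3 + (x.a1 * y.q2 - x.a2 * y.q1)⟩⟩
instance : One K := ⟨⟨0, 0, 0, 0, 0, 0, 0⟩⟩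
instance : Inv K := ⟨fun x => ⟨-x.a1, -x.a2, -x.a3, -x.p, -x.q1 + x.a1 * x.a3,
  -x.q2 + x.a2 * x.a3, -x.z + (x.p * x.a3 + x.a1 * x.q2 - x.a2 * x.q1)⟩⟩

lemma mul_def (x y : K) : x * y = ⟨x.a1 + y.a1, x.a2 + y.a2, x.a3 + y.a3,
  x.p + y.p + (x.a1 * y.a2 - x.a2 * y.a1), x.q1 + y.q1 + x.a1 * y.a3, x.q2 + y.q2 + x.a2 * y.a3,
  x.z + y.z + x.p * y.a3 + (x.a1 * y.q2 - x.a2 * y.q1)⟩ := rfl
lemma one_def : (1 : K) = ⟨0, 0, 0, 0, 0, 0, 0⟩ := rfl
lemma inv_def (x : K) : x⁻¹ = ⟨-x.a1, -x.a2, -x.a3, -x.p, -x.q1 + x.a1 * x.a3,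
  -x.q2 + x.a2 * x.a3, -x.z + (x.p * x.a3 + x.a1 * x.q2 - x.a2 * x.q1)⟩ := rfl

instance : Group K := Group.ofLeftAxioms
  (by intro x y w; ext <;> simp only [mul_def] <;> ring)
  (by intro x; ext <;> simp only [mul_def, one_def] <;> ring)
  (by intro x; ext <;> simp only [mul_def, one_def, inv_def] <;> ring)

end K

/-- the scalar in `ZMod 3` attached to a sign -/
def sc (s : ℤˣ) : ZMod 3 := ((s : ℤ) : ZMod 3)

lemma sc_mul (s t : ℤˣ) : sc (s * t) = sc s * sc t := by simp [sc]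
lemma sc_one : sc 1 = 1 := by simp [sc]
lemma sc_sq (s : ℤˣ) : sc s * sc s = 1 := by rw [← sc_mul, Int.units_mul_self, sc_one]

def actFun (s : ℤˣ) (x : K) : K :=
  ⟨sc s * x.a1, x.a2, x.a3, sc s * x.p, sc s * x.q1, x.q2, sc s * x.z⟩

def act : ℤˣ →* MulAut K where
  toFun s :=
    { toFun := actFun s
      invFun := actFun s
      left_inv := by
        intro x
        have h := sc_sq s
        ext <;> simp only [actFun] <;> first | rfl | (rw [← mul_assoc, h, one_mul])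
      right_inv := by
        intro x
        have h := sc_sq s
        ext <;> simp only [actFun] <;> first | rfl | (rw [← mul_assoc, h, one_mul])
      map_mul' := by
        intro x y
        have h := sc_sq s
        ext <;> simp only [actFun, K.mul_def] <;> ring }
  map_one' := by
    ext x <;> simp [actFun, sc_one]
  map_mul' := by
    intro s t
    ext x <;> simp [actFun, sc_mul, mul_assoc]

lemma act_apply (s : ℤˣ) (x : K) : act s x = actFun s x := rfl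

/-- the big group `B(3,3) ⋊ C₂` -/
abbrev HH := SemidirectProduct K ℤˣ act

/-- embedding of the centre of `K` -/
def Zel (c : ZMod 3) : HH := ⟨⟨0, 0, 0, 0, 0, 0, c⟩, 1⟩

/-- the alternating trilinear form -/
def dt (x y w : HH) : ZMod 3 :=
  (x.left.a1 * y.left.a2 - x.left.a2 * y.left.a1) * w.left.a3
  + (x.left.a2 * y.left.a3 - x.left.a3 * y.left.a2) * w.left.a1
  - (x.left.a1 * y.left.a3 - x.left.a3 * y.left.a1) * w.left.a2

section words
variable {G : Type} [Group G]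

def com (x y : G) : G := x * y * x⁻¹ * y⁻¹
def cc (x y w : G) : G := com (com x y) w
def pp (a x : G) : G := (x * (a * x * a⁻¹)) ^ 2
def Th (t z : G) : G := z * (t * z * t⁻¹)
def gg (t1 t2 t3 : G) : G := Th t3 (Th t2 (Th t1 (cc (t1 ^ 2) (t2 ^ 2) (t3 ^ 2))))

variable {G' : Type} [Group G'] (φ : G →* G')
lemma map_cc (x y w : G) : φ (cc x y w) = cc (φ x) (φ y) (φ w) := by
  simp [cc, com]
lemma map_pp (a x : G) : φ (pp a x) = pp (φ a) (φ x) := by simp [pp]
lemma map_Th (t z : G) : φ (Th t z) = Th (φ t) (φ z) := by simp [Th]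
lemma map_gg (t1 t2 t3 : G) : φ (gg t1 t2 t3) = gg (φ t1) (φ t2) (φ t3) := by
  simp [gg, map_Th, map_cc]
end words

lemma K_com1 (x y : K) : (com x y).a1 = 0 ∧ (com x y).a2 = 0 ∧ (com x y).a3 = 0 ∧
    (com x y).p = 2 * (x.a1 * y.a2 - x.a2 * y.a1) ∧ (com x y).q1 = x.a1 * y.a3 - x.a3 * y.a1 ∧
    (com x y).q2 = x.a2 * y.a3 - x.a3 * y.a2 := by
  unfold com
  simp only [K.mul_def, K.inv_def]
  refine ⟨?_, ?_, ?_, ?_, ?_, ?_⟩ <;> ring

lemma K_com2 (u w : K) (h1 : u.a1 = 0) (h2 : u.a2 = 0) (h3 : u.a3 = 0) :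
    com u w = ⟨0, 0, 0, 0, 0, 0, u.p * w.a3 - (w.a1 * u.q2 - w.a2 * u.q1)⟩ := by
  unfold com
  simp only [K.mul_def, K.inv_def, h1, h2, h3]
  ext <;> simp only <;> ring

lemma K_cc (x y w : K) : cc x y w = ⟨0, 0, 0, 0, 0, 0,
    -((x.a1 * y.a2 - x.a2 * y.a1) * w.a3 + (x.a2 * y.a3 - x.a3 * y.a2) * w.a1
      - (x.a1 * y.a3 - x.a3 * y.a1) * w.a2)⟩ := by
  obtain ⟨h1, h2, h3, h4, h5, h6⟩ := K_com1 x y
  unfold cc
  rw [K_com2 _ _ h1 h2 h3, h4, h5, h6]
  have h3 : (3 : ZMod 3) = 0 := by decide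
  congr 1
  linear_combination ((x.a1 * y.a2 - x.a2 * y.a1) * w.a3) * h3

lemma cc_eq (x y w : HH) (hx : x.right = 1) (hy : y.right = 1) (hw : w.right = 1) :
    cc x y w = Zel (- dt x y w) := by
  have ex : x = SemidirectProduct.inl x.left := by ext <;> simp [hx]
  have ey : y = SemidirectProduct.inl y.left := by ext <;> simp [hy]
  have ew : w = SemidirectProduct.inl w.left := by ext <;> simp [hw]
  rw [ex, ey, ew, ← map_cc, K_cc]
  rfl

lemma Zel_mul (a b : ZMod 3) : Zel a * Zel b = Zel (a + b) := by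
  unfold Zel
  ext <;> simp [K.mul_def]

lemma Zel_zero : Zel 0 = 1 := rfl

lemma Zel_inv (a : ZMod 3) : (Zel a)⁻¹ = Zel (-a) := by
  rw [inv_eq_iff_mul_eq_one, Zel_mul, add_neg_cancel, Zel_zero]

lemma Zel_conj (h : HH) (a : ZMod 3) : h * Zel a * h⁻¹ = Zel (sc h.right * a) := by
  rw [mul_inv_eq_iff_eq_mul]
  unfold Zel
  apply SemidirectProduct.ext
  · simp only [SemidirectProduct.mul_left, map_one, MulAut.one_apply, act_apply, actFun]
    ext <;> simp only [K.mul_def] <;> ring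
  · simp

lemma Th_Zel (h : HH) (a : ZMod 3) : Th h (Zel a) = Zel ((1 + sc h.right) * a) := by
  unfold Th
  rw [Zel_conj, Zel_mul]
  congr 1
  ring

lemma sc_cases (s : ℤˣ) : (s = 1 ∧ sc s = 1) ∨ (s = -1 ∧ sc s = -1) := by
  rcases Int.units_eq_one_or s with rfl | rfl
  · left; exact ⟨rfl, sc_one⟩
  · right; exact ⟨rfl, by simp [sc]⟩

lemma mul_a1 (g h : HH) : (g * h).left.a1 = g.left.a1 + sc g.right * h.left.a1 := rfl
lemma mul_a2 (g h : HH) : (g * h).left.a2 = g.left.a2 + h.left.a2 := rfl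
lemma mul_a3 (g h : HH) : (g * h).left.a3 = g.left.a3 + h.left.a3 := rfl
lemma inv_a1 (g : HH) : (g⁻¹).left.a1 = - (sc g.right * g.left.a1) := by
  rw [SemidirectProduct.inv_left]
  have : g.right⁻¹ = g.right := Int.units_inv_eq_self _
  rw [this, act_apply]
  simp only [actFun, K.inv_def]
  ring
lemma inv_a2 (g : HH) : (g⁻¹).left.a2 = - g.left.a2 := rfl
lemma inv_a3 (g : HH) : (g⁻¹).left.a3 = - g.left.a3 := rfl

lemma pp_right (a x : HH) (hx : x.right = 1) : (pp a x).right = 1 := by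
  unfold pp
  simp [pow_two, hx]

lemma pp_a1 (a x : HH) (hx : x.right = 1) :
    (pp a x).left.a1 = 2 * (1 + sc a.right) * x.left.a1 := by
  unfold pp
  simp only [pow_two, mul_a1, inv_a1, SemidirectProduct.mul_right, SemidirectProduct.inv_right, hx,
    mul_one, one_mul, mul_inv_cancel, sc_one, sc_mul]
  have := sc_sq a.right
  linear_combination (-2 * a.left.a1) * this

lemma pp_a2 (a x : HH) : (pp a x).left.a2 = x.left.a2 := by
  unfold pp
  simp only [pow_two, mul_a2, inv_a2]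
  have h3 : (3 : ZMod 3) = 0 := by decide
  linear_combination (x.left.a2) * h3

lemma pp_a3 (a x : HH) : (pp a x).left.a3 = x.left.a3 := by
  unfold pp
  simp only [pow_two, mul_a3, inv_a3]
  have h3 : (3 : ZMod 3) = 0 := by decide
  linear_combination (x.left.a3) * h3

/-- the law (*) -/
lemma star (a x y w : HH) (hx : x.right = 1) (hy : y.right = 1) (hw : w.right = 1) :
    cc x y w = cc (pp a x) (pp a y) (pp a w) * (a * cc x y w * a⁻¹) * (cc x y w)⁻¹ := by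
  rw [cc_eq _ _ _ hx hy hw, cc_eq _ _ _ (pp_right a x hx) (pp_right a y hy) (pp_right a w hw),
    Zel_conj, Zel_inv, Zel_mul, Zel_mul]
  congr 1
  unfold dt
  rw [pp_a1 a x hx, pp_a1 a y hy, pp_a1 a w hw, pp_a2, pp_a2, pp_a2, pp_a3, pp_a3, pp_a3]
  have h3 : (3 : ZMod 3) = 0 := by decide
  rcases sc_cases a.right with ⟨_, h⟩ | ⟨_, h⟩
  · rw [h]
    linear_combination ((x.left.a1 * y.left.a2 - x.left.a2 * y.left.a1) * w.left.a3
      + (x.left.a2 * y.left.a3 - x.left.a3 * y.left.a2) * w.left.a1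
      - (x.left.a1 * y.left.a3 - x.left.a3 * y.left.a1) * w.left.a2) * h3
  · rw [h]
    linear_combination (-((x.left.a1 * y.left.a2 - x.left.a2 * y.left.a1) * w.left.a3
      + (x.left.a2 * y.left.a3 - x.left.a3 * y.left.a2) * w.left.a1
      - (x.left.a1 * y.left.a3 - x.left.a3 * y.left.a1) * w.left.a2)) * h3

end Pool.Agent.MP49fec2
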