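import Pool.Agent.MP49fec2.Defs
import Pool.Agent.MP49fec2.Grp

set_option autoImplicit false

namespace Pool.Agent.MP49fec2

section main
variable {R Q : Type} [Group R] [Group Q] (q : R →* Q)
  (hq : ∀ r : R, (∀ φ : R →* HH, φ r = 1) → q r = 1)

include hq in
lemma eq_of_all {r s : R} (h : ∀ φ : R →* HH, φ r = φ s) : q r = q s := by
  have := hq (r * s⁻¹) (fun φ => by rw [map_mul, map_inv, h φ, mul_inv_cancel])
  rw [map_mul, map_inv, mul_inv_eq_one] at this
  exact this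

/-- `y` is linear in `a,b` -/
def Lin (a b y : R) (i j : ℤ) : Prop := ∀ φ : R →* HH,
  (φ y).right = 1 ∧
  (φ y).left.a2 = i * (φ a).left.a2 + j * (φ b).left.a2 ∧
  (φ y).left.a3 = i * (φ a).left.a3 + j * (φ b).left.a3 ∧
  ((φ a).right = 1 → (φ b).right = 1 →
    (φ y).left.a1 = i * (φ a).left.a1 + j * (φ b).left.a1)

def Lin' (a b y : R) (i j : ℤ) : Prop := ∀ φ : R →* HH,
  (φ y).left.a2 = i * (φ a).left.a2 + j * (φ b).left.a2 ∧
  (φ y).left.a3 = i * (φ a).left.a3 + j * (φ b).left.a3 ∧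
  ((φ a).right = 1 → (φ b).right = 1 →
    (φ y).right = 1 ∧ (φ y).left.a1 = i * (φ a).left.a1 + j * (φ b).left.a1)

lemma lin'_closure (a b d : R) (hd : d ∈ Subgroup.closure ({a, b} : Set R)) :
    ∃ i j : ℤ, Lin' a b d i j := by
  induction hd using Subgroup.closure_induction with
  | mem x hx =>
    rcases hx with rfl | hx
    · refine ⟨1, 0, fun φ => ⟨by simp, by simp, fun h1 h2 => ⟨h1, by simp⟩⟩⟩
    · rw [Set.mem_singleton_iff] at hx
      subst hx
      refine ⟨0, 1, fun φ => ⟨by simp, by simp, fun h1 h2 => ⟨h2, by simp⟩⟩⟩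
  | one => exact ⟨0, 0, fun φ => ⟨by simp; rfl, by simp; rfl, fun h1 h2 => ⟨by simp, by simp; rfl⟩⟩⟩
  | mul x y _ _ hx hy =>
    obtain ⟨i, j, h⟩ := hx
    obtain ⟨i', j', h'⟩ := hy
    refine ⟨i + i', j + j', fun φ => ?_⟩
    obtain ⟨u1, u2, u3⟩ := h φ
    obtain ⟨w1, w2, w3⟩ := h' φ
    refine ⟨?_, ?_, fun k1 k2 => ⟨?_, ?_⟩⟩
    · rw [map_mul, mul_a2, u1, w1]; push_cast; ring
    · rw [map_mul, mul_a3, u2, w2]; push_cast; ring
    · rw [map_mul, SemidirectProduct.mul_right, (u3 k1 k2).1, (w3 k1 k2).1, mul_one]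
    · rw [map_mul, mul_a1, (u3 k1 k2).1, (u3 k1 k2).2, (w3 k1 k2).2, sc_one]; push_cast; ring
  | inv x _ hx =>
    obtain ⟨i, j, h⟩ := hx
    refine ⟨-i, -j, fun φ => ?_⟩
    obtain ⟨u1, u2, u3⟩ := h φ
    refine ⟨?_, ?_, fun k1 k2 => ⟨?_, ?_⟩⟩
    · rw [map_inv, inv_a2, u1]; push_cast; ring
    · rw [map_inv, inv_a3, u2]; push_cast; ring
    · rw [map_inv, SemidirectProduct.inv_right, (u3 k1 k2).1, inv_one]
    · rw [map_inv, inv_a1, (u3 k1 k2).1, (u3 k1 k2).2, sc_one]; push_cast; ring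

lemma right_sq (h : HH) : (h ^ 2).right = 1 := by
  rw [pow_two, SemidirectProduct.mul_right, Int.units_mul_self]

lemma exists_lin (a b : R) (hgen : ∀ r : R, ∃ d ∈ Subgroup.closure ({a, b} : Set R), q r = q d)
    (x : R) (hx : x ∈ Subgroup.closure {y : R | ∃ r, y = r ^ 2}) :
    ∃ y : R, q x = q y ∧ ∃ i j : ℤ, Lin a b y i j := by
  induction hx using Subgroup.closure_induction with
  | mem x hx =>
    obtain ⟨r, rfl⟩ := hx
    obtain ⟨d, hd, hrd⟩ := hgen r
    obtain ⟨i, j, h⟩ := lin'_closure a b d hd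
    refine ⟨d ^ 2, by rw [map_pow, map_pow, hrd], 2 * i, 2 * j, fun φ => ?_⟩
    obtain ⟨u1, u2, u3⟩ := h φ
    refine ⟨by rw [map_pow, right_sq], ?_, ?_, fun k1 k2 => ?_⟩
    · rw [map_pow, pow_two, mul_a2, u1]; push_cast; ring
    · rw [map_pow, pow_two, mul_a3, u2]; push_cast; ring
    · rw [map_pow, pow_two, mul_a1, (u3 k1 k2).1, (u3 k1 k2).2, sc_one]; push_cast; ring
  | one => exact ⟨1, rfl, 0, 0, fun φ => ⟨by simp, by simp; rfl, by simp; rfl, fun h1 h2 => by simp; rfl⟩⟩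
  | mul x y _ _ hx hy =>
    obtain ⟨x', hx', i, j, h⟩ := hx
    obtain ⟨y', hy', i', j', h'⟩ := hy
    refine ⟨x' * y', by rw [map_mul, map_mul, hx', hy'], i + i', j + j', fun φ => ?_⟩
    obtain ⟨u0, u1, u2, u3⟩ := h φ
    obtain ⟨w0, w1, w2, w3⟩ := h' φ
    refine ⟨?_, ?_, ?_, fun k1 k2 => ?_⟩
    · rw [map_mul, SemidirectProduct.mul_right, u0, w0, mul_one]
    · rw [map_mul, mul_a2, u1, w1]; push_cast; ring
    · rw [map_mul, mul_a3, u2, w2]; push_cast; ring
    · rw [map_mul, mul_a1, u0, u3 k1 k2, w3 k1 k2, sc_one]; push_cast; ring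
  | inv x _ hx =>
    obtain ⟨x', hx', i, j, h⟩ := hx
    refine ⟨x'⁻¹, by rw [map_inv, map_inv, hx'], -i, -j, fun φ => ?_⟩
    obtain ⟨u0, u1, u2, u3⟩ := h φ
    refine ⟨?_, ?_, ?_, fun k1 k2 => ?_⟩
    · rw [map_inv, SemidirectProduct.inv_right, u0, inv_one]
    · rw [map_inv, inv_a2, u1]; push_cast; ring
    · rw [map_inv, inv_a3, u2]; push_cast; ring
    · rw [map_inv, inv_a1, u0, u3 k1 k2, sc_one]; push_cast; ring

include hq in
lemma stepB (a b : R) (hgen : ∀ r : R, ∃ d ∈ Subgroup.closure ({a, b} : Set R), q r = q d)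
    (x y w : R) (hx : x ∈ Subgroup.closure {y : R | ∃ r, y = r ^ 2})
    (hy : y ∈ Subgroup.closure {y : R | ∃ r, y = r ^ 2})
    (hw : w ∈ Subgroup.closure {y : R | ∃ r, y = r ^ 2}) :
    q (cc (pp b (pp a x)) (pp b (pp a y)) (pp b (pp a w))) = 1 := by
  obtain ⟨x', hx', i1, j1, l1⟩ := exists_lin q a b hgen x hx
  obtain ⟨y', hy', i2, j2, l2⟩ := exists_lin q a b hgen y hy
  obtain ⟨w', hw', i3, j3, l3⟩ := exists_lin q a b hgen w hw
  rw [map_cc, map_pp, map_pp, map_pp, map_pp, map_pp, map_pp, hx', hy', hw',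
    ← map_pp, ← map_pp, ← map_pp, ← map_pp, ← map_pp, ← map_pp, ← map_cc]
  apply hq
  intro φ
  obtain ⟨u0, u1, u2, u3⟩ := l1 φ
  obtain ⟨v0, v1, v2, v3⟩ := l2 φ
  obtain ⟨w0, w1, w2, w3⟩ := l3 φ
  rw [map_cc, map_pp, map_pp, map_pp, map_pp, map_pp, map_pp,
    cc_eq _ _ _ (pp_right _ _ (pp_right _ _ u0)) (pp_right _ _ (pp_right _ _ v0))
      (pp_right _ _ (pp_right _ _ w0)), ← Zel_zero]
  congr 1
  unfold dt
  rw [pp_a1 _ _ (pp_right _ _ u0), pp_a1 _ _ (pp_right _ _ v0), pp_a1 _ _ (pp_right _ _ w0),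
    pp_a1 _ _ u0, pp_a1 _ _ v0, pp_a1 _ _ w0]
  simp only [pp_a2, pp_a3]
  rcases sc_cases (φ a).right with ⟨ha, ha'⟩ | ⟨_, ha'⟩
  · rcases sc_cases (φ b).right with ⟨hb, hb'⟩ | ⟨_, hb'⟩
    · rw [ha', hb', u1, u2, u3 ha hb, v1, v2, v3 ha hb, w1, w2, w3 ha hb]
      ring
    · rw [hb']; ring
  · rw [ha']; ring

include hq in
theorem main_lemma (a b : R)
    (hgen : ∀ r : R, ∃ d ∈ Subgroup.closure ({a, b} : Set R), q r = q d)
    (t1 t2 t3 : R) (ht : Subgroup.closure ({t1, t2, t3} : Set R) = ⊤) :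
    q (gg t1 t2 t3) = 1 := by
  have hsq : ∀ (φ : R →* HH) (t : R), (φ (t ^ 2)).right = 1 := fun φ t => by
    rw [map_pow, right_sq]
  set c0 := cc (t1 ^ 2) (t2 ^ 2) (t3 ^ 2) with hc0
  set c1 := cc (pp a (t1 ^ 2)) (pp a (t2 ^ 2)) (pp a (t3 ^ 2)) with hc1
  have hmem : ∀ t : R, t ^ 2 ∈ Subgroup.closure {y : R | ∃ r, y = r ^ 2} := fun t =>
    Subgroup.subset_closure ⟨t, rfl⟩
  have e0 : q c0 = q (c1 * (a * c0 * a⁻¹) * c0⁻¹) := by
    apply eq_of_all q hq
    intro φ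
    rw [hc0, hc1]
    simp only [map_mul, map_inv, map_cc, map_pp]
    exact star _ _ _ _ (hsq φ t1) (hsq φ t2) (hsq φ t3)
  have e1 : q c1 = q (b * c1 * b⁻¹ * c1⁻¹) := by
    have : q c1 = q (cc (pp b (pp a (t1 ^ 2))) (pp b (pp a (t2 ^ 2))) (pp b (pp a (t3 ^ 2))) *
        (b * c1 * b⁻¹) * c1⁻¹) := by
      apply eq_of_all q hq
      intro φ
      rw [hc1]
      simp only [map_mul, map_inv, map_cc, map_pp]
      exact star _ _ _ _ (pp_right _ _ (hsq φ t1)) (pp_right _ _ (hsq φ t2))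
        (pp_right _ _ (hsq φ t3))
    rw [this, map_mul, map_mul, stepB q hq a b hgen _ _ _ (hmem t1) (hmem t2) (hmem t3), one_mul,
      ← map_mul]
  have e2 : q c0 = q ((b * c1 * b⁻¹ * c1⁻¹) * (a * c0 * a⁻¹ * c0⁻¹)) := by
    rw [e0, map_mul, map_mul, e1, map_mul q (b * c1 * b⁻¹ * c1⁻¹), map_mul q (a * c0 * a⁻¹)]
    simp only [mul_assoc]
  have e3 : q (gg t1 t2 t3) = q (Th t3 (Th t2 (Th t1 ((b * c1 * b⁻¹ * c1⁻¹) *
      (a * c0 * a⁻¹ * c0⁻¹))))) := by
    unfold gg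
    rw [map_Th, map_Th, map_Th, map_Th, map_Th, map_Th, ← hc0, e2]
  rw [e3]
  apply hq
  intro φ
  have z0 : φ c0 = Zel (- dt (φ (t1 ^ 2)) (φ (t2 ^ 2)) (φ (t3 ^ 2))) := by
    rw [hc0, map_cc, cc_eq _ _ _ (hsq φ t1) (hsq φ t2) (hsq φ t3)]
  have z1 : φ c1 = Zel (- dt (φ (pp a (t1 ^ 2))) (φ (pp a (t2 ^ 2))) (φ (pp a (t3 ^ 2)))) := by
    rw [hc1, map_cc, cc_eq]
    · rw [map_pp]; exact pp_right _ _ (hsq φ t1)
    · rw [map_pp]; exact pp_right _ _ (hsq φ t2)
    · rw [map_pp]; exact pp_right _ _ (hsq φ t3)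
  rw [map_Th, map_Th, map_Th, map_mul, map_mul, map_mul, map_mul, map_mul, map_mul, map_mul,
    map_inv, map_inv, map_inv, map_inv, z0, z1, Zel_conj, Zel_conj, Zel_inv, Zel_inv, Zel_mul, Zel_mul,
    Zel_mul, Th_Zel, Th_Zel, Th_Zel, ← Zel_zero]
  congr 1
  rcases sc_cases (φ t1).right with ⟨h1, h1'⟩ | ⟨_, h1'⟩
  · rcases sc_cases (φ t2).right with ⟨h2, h2'⟩ | ⟨_, h2'⟩
    · rcases sc_cases (φ t3).right with ⟨h3, h3'⟩ | ⟨_, h3'⟩
      · have hall : ∀ r : R, (φ r).right = 1 := by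
          intro r
          have hr : r ∈ Subgroup.closure ({t1, t2, t3} : Set R) := by rw [ht]; trivial
          have hle : Subgroup.closure ({t1, t2, t3} : Set R) ≤
              (SemidirectProduct.rightHom.comp φ).ker := by
            rw [Subgroup.closure_le]
            intro x hx
            simp only [Set.mem_insert_iff, Set.mem_singleton_iff] at hx
            rw [SetLike.mem_coe, MonoidHom.mem_ker]
            rcases hx with rfl | rfl | rfl
            · exact h1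
            · exact h2
            · exact h3
          exact hle hr
        rw [hall a, hall b, sc_one]
        ring
      · rw [h3']; ring
    · rw [h2']; ring
  · rw [h1']; ring

end main

/-! ### assembly -/

def h1 : HH := ⟨⟨0, 1, 0, 0, 0, 0, 0⟩, -1⟩
def h2 : HH := ⟨⟨1, 0, 1, 0, 0, 0, 0⟩, -1⟩

/-- the two-generator group `H` -/
abbrev H : Type := (Subgroup.closure ({h1, h2} : Set HH) : Subgroup HH)

def H1 : H := ⟨h1, Subgroup.subset_closure (by simp)⟩
def H2 : H := ⟨h2, Subgroup.subset_closure (by simp)⟩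

/-- the laws of `H` -/
def L : Set (FreeGroup ℕ) := {w | IsLaw H w}

lemma inVariety_relFree (m : ℕ) : InVariety L (RelFree L m) := by
  intro w hw f
  have hex : ∀ i, ∃ x : FreeGroup (Fin m), (QuotientGroup.mk' (verbal L m)) x = f i := fun i =>
    QuotientGroup.mk'_surjective _ (f i)
  choose g hg using hex
  have : (FreeGroup.lift f) = (QuotientGroup.mk' (verbal L m)).comp (FreeGroup.lift g) := by
    ext i; simp [← hg]
  rw [this, MonoidHom.comp_apply, QuotientGroup.mk'_apply, QuotientGroup.eq_one_iff]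
  exact Subgroup.subset_closure ⟨w, hw, g, rfl⟩

lemma verbal_le_ker {m : ℕ} (φ : FreeGroup (Fin m) →* H) : verbal L m ≤ φ.ker := by
  unfold verbal
  rw [Subgroup.closure_le]
  rintro _ ⟨w, hw, f, rfl⟩
  rw [SetLike.mem_coe, MonoidHom.mem_ker]
  have : φ.comp (FreeGroup.lift f) = FreeGroup.lift (fun i => φ (f i)) :=
    FreeGroup.ext_hom _ _ (fun i => by simp)
  rw [← MonoidHom.comp_apply, this]
  exact hw _

lemma H_gen : Subgroup.closure ({H1, H2} : Set H) = ⊤ := by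
  have := Subgroup.closure_closure_coe_preimage (k := ({h1, h2} : Set HH))
  rw [← this]
  congr 1
  ext x
  simp only [Set.mem_insert_iff, Set.mem_singleton_iff, Set.mem_preimage, H1, H2, Subtype.ext_iff]

lemma generates : Generates L (RelFree L 2) := by
  refine ⟨inVariety_relFree 2, ?_⟩
  intro w hw T _ hT
  apply hT
  intro f
  let φ : FreeGroup (Fin 2) →* H := FreeGroup.lift ![H1, H2]
  have hsurj : Function.Surjective φ := by
    rw [← MonoidHom.range_eq_top]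
    rw [eq_top_iff, ← H_gen, Subgroup.closure_le]
    intro x hx
    rcases hx with rfl | hx
    · exact ⟨FreeGroup.of 0, by simp [φ]⟩
    · rw [Set.mem_singleton_iff] at hx
      subst hx
      exact ⟨FreeGroup.of 1, by simp [φ]⟩
  let ψ : RelFree L 2 →* H := QuotientGroup.lift (verbal L 2) φ (fun x hx => verbal_le_ker φ hx)
  have hψ : Function.Surjective ψ := by
    intro y
    obtain ⟨x, hx⟩ := hsurj y
    exact ⟨(x : RelFree L 2), hx⟩
  choose g hg using fun i => hψ (f i)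
  have : FreeGroup.lift f = ψ.comp (FreeGroup.lift g) :=
    FreeGroup.ext_hom _ _ (fun i => by simp [hg])
  rw [this, MonoidHom.comp_apply, hw g, map_one]

lemma lam_le (r : FreeGroup (Fin 3)) (hr : ∀ φ : FreeGroup (Fin 3) →* HH, φ r = 1) :
    r ∈ verbal L 3 := by
  have hmem : FreeGroup.map (fun i : Fin 3 => (i : ℕ)) r ∈ L := by
    intro f
    have h1 := hr ((Subgroup.subtype _).comp (FreeGroup.lift (fun i : Fin 3 => f i)))
    rw [MonoidHom.comp_apply] at h1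
    have h2 : FreeGroup.lift (fun i : Fin 3 => f i) r = 1 := by
      apply Subtype.ext
      exact h1
    rw [← h2]
    have : (FreeGroup.lift f).comp (FreeGroup.map (fun i : Fin 3 => (i : ℕ)))
        = FreeGroup.lift (fun i : Fin 3 => f i) :=
      FreeGroup.ext_hom _ _ (fun i => by simp)
    rw [← this]
    rfl
  refine Subgroup.subset_closure ⟨_, hmem, fun i => if h : i < 3 then FreeGroup.of ⟨i, h⟩ else 1, ?_⟩
  have : (FreeGroup.lift (fun i : ℕ => if h : i < 3 then FreeGroup.of (⟨i, h⟩ : Fin 3) else 1)).comp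
      (FreeGroup.map (fun i : Fin 3 => (i : ℕ))) = MonoidHom.id (FreeGroup (Fin 3)) := by
    ext i
    simp
  have h2 := congrArg (fun φ => φ r) this
  exact h2.symm

def g0 : FreeGroup (Fin 3) := gg (FreeGroup.of 0) (FreeGroup.of 1) (FreeGroup.of 2)

lemma g0_not_mem : g0 ∉ verbal L 3 := by
  intro h
  have h1' := verbal_le_ker (FreeGroup.lift ![H1 ^ 2, H2 ^ 2, H1 * H2] : FreeGroup (Fin 3) →* H) h
  rw [MonoidHom.mem_ker, g0, map_gg] at h1'
  simp only [FreeGroup.lift_apply_of, Matrix.cons_val_zero, Matrix.cons_val_one, Matrix.cons_val] at h1'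
  have h2' := congrArg (Subgroup.subtype _) h1'
  rw [map_gg, map_one] at h2'
  have h3' : gg (h1 ^ 2) (h2 ^ 2) (h1 * h2) = 1 := h2'
  have r1 : (h1 ^ 2).right = 1 := right_sq _
  have r2 : (h2 ^ 2).right = 1 := right_sq _
  have r3 : (h1 * h2).right = 1 := by decide
  unfold gg at h3'
  rw [cc_eq _ _ _ (right_sq _) (right_sq _) (right_sq _), Th_Zel, Th_Zel, Th_Zel, r1, r2, r3] at h3'
  have h4 : (1 + sc 1) * ((1 + sc 1) * ((1 + sc 1) *
      -dt ((h1 ^ 2) ^ 2) ((h2 ^ 2) ^ 2) ((h1 * h2) ^ 2))) = (0 : ZMod 3) := by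
    have := congrArg (fun x : HH => x.left.z) h3'
    exact this
  revert h4
  decide

theorem not_residual : ¬ ResiduallyGen 2 (RelFree L 3) := by
  intro hres
  obtain ⟨N, hN, hg, s, hs⟩ := hres (g0 : RelFree L 3) (by
    rw [Ne, QuotientGroup.eq_one_iff]
    exact g0_not_mem)
  apply hg
  let q : FreeGroup (Fin 3) →* (RelFree L 3) ⧸ N :=
    (QuotientGroup.mk' N).comp (QuotientGroup.mk' (verbal L 3))
  have hsurj : Function.Surjective q :=
    (QuotientGroup.mk'_surjective N).comp (QuotientGroup.mk'_surjective _)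
  obtain ⟨a, ha⟩ := hsurj (s 0)
  obtain ⟨b, hb⟩ := hsurj (s 1)
  have hq : ∀ r, (∀ φ : FreeGroup (Fin 3) →* HH, φ r = 1) → q r = 1 := by
    intro r hr
    have := lam_le r hr
    have h1 : (QuotientGroup.mk' (verbal L 3)) r = 1 := by
      rw [QuotientGroup.mk'_apply, QuotientGroup.eq_one_iff]; exact this
    simp only [q, MonoidHom.comp_apply, h1, map_one]
  have hgen : ∀ r : FreeGroup (Fin 3), ∃ d ∈ Subgroup.closure ({a, b} : Set (FreeGroup (Fin 3))),
      q r = q d := by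
    intro r
    have h1 : q r ∈ (Subgroup.closure ({a, b} : Set (FreeGroup (Fin 3)))).map q := by
      rw [MonoidHom.map_closure]
      have : q '' {a, b} = Set.range s := by
        rw [Set.image_pair, ha, hb]
        ext x
        simp only [Set.mem_insert_iff, Set.mem_singleton_iff, Set.mem_range, Fin.exists_fin_two]
        tauto
      rw [this, hs]
      trivial
    obtain ⟨d, hd, hd'⟩ := h1
    exact ⟨d, hd, hd'.symm⟩
  have ht : Subgroup.closure ({FreeGroup.of 0, FreeGroup.of 1, FreeGroup.of 2} :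
      Set (FreeGroup (Fin 3))) = ⊤ := by
    rw [eq_top_iff, ← FreeGroup.closure_range_of (Fin 3)]
    apply Subgroup.closure_mono
    rintro _ ⟨i, rfl⟩
    fin_cases i <;> simp
  have := main_lemma q hq a b hgen _ _ _ ht
  have h2 : (QuotientGroup.mk' N) (g0 : RelFree L 3) = 1 := this
  rwa [QuotientGroup.mk'_apply, QuotientGroup.eq_one_iff] at h2

end Pool.Agent.MP49fec2
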